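import Pool.Agent.Helper59.LUC.All2

set_option autoImplicit false

open Pool.Agent.Helper59.LUC in
/-- Let `(P, Q) ∈ S` with roots `α, β` and `α / β = ± η ^ k`, where `η = a + b √-d` has norm one, `d` is squarefree and
divides `k`, and `d ≡ 3 mod 4`, or `2 d ∣ k`, or the squarefree part `t` of `2 + 2 a` divides `k`. Then all but finitely
many terms `U_n(P, Q)` have at least two primitive prime factors. -/
theorem Pool.Agent.Results.MP_387004_nt.SplitPairsU.result :
    ∀ (P Q : ℤ), InS P Q →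
      ∀ (d k : ℕ) (a b : ℚ) (η α β : ℂ), Squarefree d → 0 < k → d ∣ k →
        (d % 4 = 3 ∨ 2 * d ∣ k ∨
          ∃ (t : ℕ) (c : ℚ), Squarefree t ∧ t ∣ k ∧ c ^ 2 = t * (2 + 2 * a)) →
        a ^ 2 + d * b ^ 2 = 1 → η = (a : ℂ) + (b : ℂ) * ((Real.sqrt d : ℝ) : ℂ) * Complex.I →
        α + β = P → α * β = Q → (α = η ^ k * β ∨ α = -(η ^ k * β)) →
        {n : ℕ | (Prim (U P Q) n).ncard ≤ 1}.Finite :=
  All2.mainU
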