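import Pool.Agent.Helper59.LUC.All2

set_option autoImplicit false

open Pool.Agent.Helper59.LUC in
/-- Let `(P, Q) ∈ S` with roots `α, β` and `α / β = ± η ^ k`, where `η = a + b √-d` has norm one and `d` is squarefree.
Suppose one of three divisibility conditions on `d`, `k` and the squarefree part `t` of `2 + 2 a`. Then all but finitely
many terms `V_n(P, Q)` have at least two primitive prime factors. -/
theorem Pool.Agent.Results.MP_387004_nt.SplitPairsV.result :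
    ∀ (P Q : ℤ), InS P Q →
      ∀ (d k : ℕ) (a b : ℚ) (η α β : ℂ), Squarefree d → 0 < k →
        a ^ 2 + d * b ^ 2 = 1 → η = (a : ℂ) + (b : ℂ) * ((Real.sqrt d : ℝ) : ℂ) * Complex.I →
        α + β = P → α * β = Q → (α = η ^ k * β ∨ α = -(η ^ k * β)) →
        ((d ∣ k ∧ (d % 4 = 3 ∨ 2 * d ∣ k ∨
            ∃ (t : ℕ) (c : ℚ), Squarefree t ∧ t ∣ k ∧ c ^ 2 = t * (2 + 2 * a))) ∨
          (d ∣ k ∧ 2 ∣ k ∧ α = -(η ^ k * β)) ∨
          (d ∣ 2 * k ∧ d % 2 = 0 ∧ k % 2 = 1 ∧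
            ∃ (t : ℕ) (c : ℚ), Squarefree t ∧ t ∣ 2 * k ∧ c ^ 2 = t * (2 + 2 * a) ∧
              ((α = η ^ k * β ∧ (t % 4 = 3 ∨ (d * t) % 16 = 4)) ∨
                (α = -(η ^ k * β) ∧ (t % 4 = 1 ∨ (d * t) % 16 = 12))))) →
        {n : ℕ | (Prim (V P Q) n).ncard ≤ 1}.Finite :=
  All2.mainV
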